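import Mathlib

namespace Pool.Agent.Results.MP_4b3b27_co.Squares
open Set Complex

/-- `f` is a similitude of the plane with ratio `r`. -/
def Simil (f : ℂ → ℂ) (r : ℝ) : Prop := 0 < r ∧ ∀ x y, dist (f x) (f y) = r * dist x y

def Congr (t u : Set ℂ) : Prop := ∃ g, Simil g 1 ∧ g '' t = u

/-- A closed axis-parallel square of positive side. -/
def IsSquare (t : Set ℂ) : Prop := ∃ a b k : ℝ, 0 < k ∧ t = Icc a (a + k) ×ℂ Icc b (b + k)

/-- The pieces `T` cover `X` and meet only in boundary points. -/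
def Tiles (T : Set (Set ℂ)) (X : Set ℂ) : Prop :=
  ⋃₀ T = X ∧ ∀ t ∈ T, ∀ u ∈ T, t ≠ u → t ∩ u ⊆ frontier t ∩ frontier u

def Patch (T U : Set (Set ℂ)) : Prop :=
  U ⊆ T ∧ Nonempty (⋃₀ U ≃ₜ Metric.closedBall (0 : ℂ) 1)

/-- Self-similar, quasiperiodic tiling of finite order with pairwise similar tiles. -/
structure SelfSim (T : Set (Set ℂ)) : Prop where
  compact : ∀ t ∈ T, IsCompact t
  tiles : Tiles T univ
  order : ∃ P : Set (Set ℂ), P.Finite ∧ ∀ t ∈ T, ∃ u ∈ P, Congr t u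
  similar : ∀ t ∈ T, ∀ u ∈ T, ∃ g r, Simil g r ∧ g '' t = u
  quasi : ∀ U, Patch T U → ∃ R > 0, ∀ c : ℂ, ∃ V, Patch T V ∧ ⋃₀ V ⊆ Metric.closedBall c R ∧
    ∃ g, Simil g 1 ∧ V = (fun t => g '' t) '' U
  self : ∃ φ r, 1 < r ∧ Simil φ r ∧ ∀ t ∈ T, ∃ U ⊆ T, φ '' t = ⋃₀ U

section
variable {N : ℕ} (p : Set ℂ) (f : Fin N → ℂ ≃ ℂ) (a : Fin N → ℕ)

def e (σ : List (Fin N)) : ℕ := (σ.map a).sum
def fwd (σ : List (Fin N)) : ℂ → ℂ := σ.foldr (fun i g => f i ∘ g) id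
def bwd (σ : List (Fin N)) : ℂ → ℂ := σ.foldr (fun i g => (f i).symm ∘ g) id
def pre (θ : ℕ → Fin N) (k : ℕ) : List (Fin N) := (List.range k).map θ

/-- The tiling `T(p, F, θ)`. -/
def gen (θ : ℕ → Fin N) : Set (Set ℂ) :=
  {t | ∃ k, 1 ≤ k ∧ ∃ σ, e a (pre θ k) ≤ e a σ ∧ e a σ.dropLast < e a (pre θ k) ∧
    t = (bwd f (pre θ k) ∘ fwd f σ) '' p}
end

lemma Simil.comp {f g r s} (h : Simil f r) (h' : Simil g s) : Simil (f ∘ g) (r * s) :=
  ⟨mul_pos h.1 h'.1, fun x y => by simp [h.2, h'.2, mul_assoc]⟩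

lemma Simil.diam {f r} (h : Simil f r) (t : Set ℂ) : Metric.diam (f '' t) = r * Metric.diam t := by
  let d := Dilation.mkOfDistEq f ⟨⟨r, h.1.le⟩, fun h0 => h.1.ne' (congrArg NNReal.toReal h0), h.2⟩
  have : (Dilation.ratio d : ℝ) = r := by
    have h1 := Dilation.dist_eq d 0 1
    have h2 := h.2 0 1
    change dist (f 0) (f 1) = _ at h1
    rw [h2] at h1
    simpa using h1.symm
  rw [← this]
  exact Dilation.diam_image d t

lemma aff (c : ℂ) {r : ℝ} (hr : 0 < r) : Simil (fun z => r * z + c) r :=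
  ⟨hr, fun x y => by simp [dist_eq_norm, ← mul_sub, hr.le]⟩

lemma aff_image (c : ℂ) {r : ℝ} (hr : 0 < r) (a b a' b' : ℝ) :
    (fun z => r * z + c) '' (Icc a b ×ℂ Icc a' b') =
      Icc (r * a + c.re) (r * b + c.re) ×ℂ Icc (r * a' + c.im) (r * b' + c.im) := by
  ext z
  simp only [mem_image, mem_reProdIm, mem_Icc]
  constructor
  · rintro ⟨w, ⟨⟨h1, h2⟩, h3, h4⟩, rfl⟩
    simp
    refine ⟨⟨?_, ?_⟩, ?_, ?_⟩ <;> gcongr
  · rintro ⟨⟨h1, h2⟩, h3, h4⟩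
    refine ⟨(z - c) / r, ?_, by have : (r : ℂ) ≠ 0 := by simpa using hr.ne'
                                field_simp; ring⟩
    simp only [div_ofReal_re, div_ofReal_im, sub_re, sub_im, le_div_iff₀ hr, div_le_iff₀ hr]
    refine ⟨⟨?_, ?_⟩, ?_, ?_⟩ <;> linarith

def sq (a b k : ℤ) : Set ℂ := Icc (a : ℝ) (a + k) ×ℂ Icc (b : ℝ) (b + k)

/-- Horizontal strips of squares of sides 1, 2, 3. -/
def ok (a b k : ℤ) : Prop :=
  (k = 1 ∧ b % 6 = 0) ∨ (k = 2 ∧ b % 6 = 1 ∧ a % 2 = 0) ∨ (k = 3 ∧ b % 6 = 3 ∧ a % 3 = 0)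

def T : Set (Set ℂ) := {t | ∃ a b k, ok a b k ∧ t = sq a b k}

lemma one (x : ℝ) {A B : ℤ} (h : A < B) (h1 : A ≤ x) (h2 : x ≤ B) :
    ∃ i : ℤ, A ≤ i ∧ i < B ∧ i ≤ x ∧ x ≤ i + 1 := by
  rcases h2.eq_or_lt with h2 | h2
  · exact ⟨B - 1, by omega, by omega, by push_cast; linarith, by push_cast; linarith⟩
  · exact ⟨⌊x⌋, Int.le_floor.2 h1, Int.floor_lt.2 h2, Int.floor_le x, (Int.lt_floor_add_one x).le⟩

lemma cell (i j : ℤ) : ∃ a b k, ok a b k ∧ a ≤ i ∧ i < a + k ∧ b ≤ j ∧ j < b + k := by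
  have : j % 6 = 0 ∨ (1 ≤ j % 6 ∧ j % 6 < 3) ∨ 3 ≤ j % 6 := by omega
  rcases this with h | h | h
  · exact ⟨i, j, 1, by unfold ok; omega⟩
  · exact ⟨i - i % 2, j - j % 6 + 1, 2, by unfold ok; omega⟩
  · exact ⟨i - i % 3, j - j % 6 + 3, 3, by unfold ok; omega⟩

lemma cover {A B C D : ℤ} (h : A < B) (h' : C < D) :
    ∃ U ⊆ T, Icc (6 * A : ℝ) (6 * B) ×ℂ Icc (6 * C : ℝ) (6 * D) = ⋃₀ U := by
  refine ⟨{t ∈ T | t ⊆ _}, sep_subset _ _, Subset.antisymm (fun z hz => ?_)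
    (sUnion_subset fun t ht => ht.2)⟩
  simp only [mem_reProdIm, mem_Icc] at hz
  obtain ⟨i, a1, a2, a3, a4⟩ := one z.re (A := 6 * A) (B := 6 * B) (by omega)
    (by exact_mod_cast hz.1.1) (by exact_mod_cast hz.1.2)
  obtain ⟨j, b1, b2, b3, b4⟩ := one z.im (A := 6 * C) (B := 6 * D) (by omega)
    (by exact_mod_cast hz.2.1) (by exact_mod_cast hz.2.2)
  obtain ⟨a, b, k, hk, c1, c2, c3, c4⟩ := cell i j
  have d : 6 * A ≤ a ∧ a + k ≤ 6 * B ∧ 6 * C ≤ b ∧ b + k ≤ 6 * D := by unfold ok at hk; omega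
  have c2' : i + 1 ≤ a + k := c2
  have c4' : j + 1 ≤ b + k := c4
  obtain ⟨d1, d2, d3, d4⟩ := d
  rify at c1 c2' c3 c4' d1 d2 d3 d4
  refine ⟨sq a b k, ⟨⟨a, b, k, hk, rfl⟩, fun w hw => ?_⟩, ?_⟩
  · simp only [sq, mem_reProdIm, mem_Icc] at hw ⊢
    refine ⟨⟨?_, ?_⟩, ?_, ?_⟩ <;> linarith [hw.1.1, hw.1.2, hw.2.1, hw.2.2]
  · simp only [sq, mem_reProdIm, mem_Icc]
    refine ⟨⟨?_, ?_⟩, ?_, ?_⟩ <;> linarith

lemma pos {a b k : ℤ} (h : ok a b k) : (0 : ℝ) < k := by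
  rcases h with h | h | h <;> simp [h.1]

lemma sq_compact (a b k : ℤ) : IsCompact (sq a b k) := isCompact_Icc.reProdIm isCompact_Icc

lemma sq_image (a b a' b' k l : ℤ) (hk : (0 : ℝ) < k) (hl : (0 : ℝ) < l) :
    ∃ g, Simil g (l / k) ∧ g '' sq a b k = sq a' b' l := by
  refine ⟨_, aff ⟨a' - l / k * a, b' - l / k * b⟩ (div_pos hl hk), ?_⟩
  rw [sq, aff_image _ (div_pos hl hk), sq]
  congr 2 <;> field_simp <;> ring

lemma shift (m n : ℤ) {t : Set ℂ} (ht : t ∈ T) :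
    (fun z : ℂ => (1 : ℝ) * z + ⟨6 * m, 6 * n⟩) '' t ∈ T := by
  obtain ⟨a, b, k, h, rfl⟩ := ht
  refine ⟨a + 6 * m, b + 6 * n, k, by unfold ok at h ⊢; omega, ?_⟩
  rw [sq, aff_image _ one_pos, sq]
  congr 2 <;> push_cast <;> ring

lemma selfSim : SelfSim T where
  compact := by rintro _ ⟨a, b, k, -, rfl⟩; exact sq_compact a b k
  tiles := by
    constructor
    · refine eq_univ_of_forall fun z => ?_
      obtain ⟨n, hn⟩ := exists_nat_gt (max |z.re| |z.im|)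
      obtain ⟨U, h1, h2⟩ := cover (A := -n - 1) (B := n) (C := -n - 1) (D := n) (by omega) (by omega)
      refine sUnion_mono h1 (h2 ▸ ?_)
      simp only [max_lt_iff, abs_lt, mem_reProdIm, mem_Icc] at hn ⊢
      push_cast
      refine ⟨⟨?_, ?_⟩, ?_, ?_⟩ <;> linarith [hn.1.1, hn.1.2, hn.2.1, hn.2.2]
    · have key : ∀ t ∈ T, ∀ u ∈ T, t ≠ u → t ∩ u ⊆ frontier t := by
        rintro _ ⟨a, b, k, h, rfl⟩ _ ⟨a', b', k', h', rfl⟩ hne z ⟨h1, h2⟩
        refine ⟨subset_closure h1, fun h3 => hne ?_⟩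
        simp only [sq, interior_reProdIm, interior_Icc, mem_reProdIm, mem_Icc, mem_Ioo] at h2 h3
        have e1 : a < a' + k' := by exact_mod_cast h3.1.1.trans_le h2.1.2
        have e2 : a' < a + k := by exact_mod_cast h2.1.1.trans_lt h3.1.2
        have e3 : b < b' + k' := by exact_mod_cast h3.2.1.trans_le h2.2.2
        have e4 : b' < b + k := by exact_mod_cast h2.2.1.trans_lt h3.2.2
        obtain ⟨rfl, rfl, rfl⟩ : a = a' ∧ b = b' ∧ k = k' := by unfold ok at h h'; omega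
        rfl
      exact fun t ht u hu h z hz => ⟨key t ht u hu h hz, key u hu t ht h.symm hz.symm⟩
  order := by
    refine ⟨{sq 0 0 1, sq 0 0 2, sq 0 0 3}, toFinite _, ?_⟩
    rintro _ ⟨a, b, k, h, rfl⟩
    refine ⟨sq 0 0 k, by rcases h with h | h | h <;> simp [h.1], ?_⟩
    simpa [Congr, (pos h).ne'] using sq_image a b 0 0 k k (pos h) (pos h)
  similar := by
    rintro _ ⟨a, b, k, h, rfl⟩ _ ⟨a', b', k', h', rfl⟩
    obtain ⟨g, hg⟩ := sq_image a b a' b' k k' (pos h) (pos h')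
    exact ⟨g, _, hg⟩
  quasi := by
    rintro U ⟨h1, ⟨h2⟩⟩
    have : CompactSpace (⋃₀ U) := h2.symm.compactSpace
    obtain ⟨R, hR, h3⟩ := (isCompact_iff_compactSpace.2 this).isBounded.subset_closedBall_lt 0 0
    refine ⟨R + 12, by linarith, fun c => ?_⟩
    let v : ℂ := ⟨6 * (⌊c.re / 6⌋ : ℤ), 6 * (⌊c.im / 6⌋ : ℤ)⟩
    have hU : ⋃₀ ((fun t => (fun z => (1 : ℝ) * z + v) '' t) '' U) = (Homeomorph.addRight v) '' ⋃₀ U := by
      simp [sUnion_image, sUnion_eq_biUnion, image_iUnion]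
    refine ⟨_, ⟨?_, ⟨?_⟩⟩, ?_, _, aff v one_pos, rfl⟩
    · rintro _ ⟨t, ht, rfl⟩
      exact shift _ _ (h1 ht)
    · rw [hU]
      exact ((Homeomorph.addRight v).image _).symm.trans h2
    · rw [hU]
      rintro _ ⟨z, hz, rfl⟩
      have h4 := h3 hz
      have h5 : ∀ x : ℝ, |6 * (⌊x / 6⌋ : ℤ) - x| ≤ 6 := fun x => by
        have := Int.floor_le (x / 6)
        have := Int.lt_floor_add_one (x / 6)
        rw [abs_le]; constructor <;> linarith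
      have h6 := norm_le_abs_re_add_abs_im (v - c)
      simp only [mem_closedBall_iff_norm, sub_zero, Homeomorph.coe_addRight] at h4 ⊢
      rw [add_sub_assoc]
      refine (norm_add_le _ _).trans ?_
      simp only [v, sub_re, sub_im] at h6 ⊢
      linarith [h5 c.re, h5 c.im]
  self := by
    refine ⟨_, 6, by norm_num, aff 0 (by norm_num), ?_⟩
    rintro _ ⟨a, b, k, h, rfl⟩
    have hk : 0 < k := by exact_mod_cast pos h
    rw [sq, aff_image _ (by norm_num)]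
    simpa using cover (A := a) (B := a + k) (C := b) (D := b + k) (by omega) (by omega)

theorem result : ∃ T : Set (Set ℂ), (∀ t ∈ T, IsSquare t) ∧ SelfSim T ∧
    ∀ (N : ℕ) (p : Set ℂ) (f : Fin N → ℂ ≃ ℂ) (a : Fin N → ℕ) (s : ℝ), 0 < s → s < 1 →
      (∀ i, Simil (f i) (s ^ a i)) → ∀ θ : ℕ → Fin N, T ≠ gen p f a θ := by
  refine ⟨T, ?_, selfSim, fun N p f a s hs _ hf θ h => ?_⟩
  · rintro _ ⟨a, b, k, h, rfl⟩
    exact ⟨a, b, k, pos h, rfl⟩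
  have h1 : ∀ σ, ∃ n : ℤ, Simil (fwd f σ) (s ^ n) ∧ ∃ m : ℤ, Simil (bwd f σ) (s ^ m) := by
    intro σ
    induction σ with
    | nil => exact ⟨0, ⟨by simp, by simp [fwd]⟩, 0, by simp, by simp [bwd]⟩
    | cons i σ ih =>
      obtain ⟨n, h1, m, h2⟩ := ih
      have h3 : Simil (f i).symm (s ^ (-(a i : ℤ))) := ⟨by positivity, fun x y => by
        have := (hf i).2 ((f i).symm x) ((f i).symm y)
        simp only [Equiv.apply_symm_apply] at this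
        rw [this, zpow_neg, zpow_natCast]
        field_simp⟩
      refine ⟨a i + n, ?_, -(a i : ℤ) + m, ?_⟩
      · rw [zpow_add₀ hs.ne', zpow_natCast]; exact (hf i).comp h1
      · rw [zpow_add₀ hs.ne']; exact h3.comp h2
  have h2 : ∀ t ∈ T, ∃ n : ℤ, Metric.diam t = s ^ n * Metric.diam p := by
    rw [h]
    rintro _ ⟨k, -, σ, -, -, rfl⟩
    obtain ⟨n, hn, -⟩ := h1 σ
    obtain ⟨-, -, m, hm⟩ := h1 (pre θ k)
    exact ⟨m + n, by rw [zpow_add₀ hs.ne', (hm.comp hn).diam]⟩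
  obtain ⟨n1, e1⟩ := h2 _ ⟨0, 0, 1, by simp [ok], rfl⟩
  obtain ⟨n2, e2⟩ := h2 _ ⟨0, 1, 2, by simp [ok], rfl⟩
  obtain ⟨n3, e3⟩ := h2 _ ⟨0, 3, 3, by simp [ok], rfl⟩
  obtain ⟨g2, a2, b2⟩ := sq_image 0 0 0 1 1 2 (by simp) (by simp)
  obtain ⟨g3, a3, b3⟩ := sq_image 0 0 0 3 1 3 (by simp) (by simp)
  rw [← b2, a2.diam, e1] at e2
  rw [← b3, a3.diam, e1] at e3
  have hp : Metric.diam p ≠ 0 := by
    intro h0
    have := Metric.dist_le_diam_of_mem (sq_compact 0 0 1).isBounded (x := 0) (y := 1)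
      (by simp [sq, mem_reProdIm]) (by simp [sq, mem_reProdIm])
    rw [e1, h0] at this
    norm_num at this
  have f2 : s ^ (n2 - n1) = 2 := by
    rw [zpow_sub₀ hs.ne', div_eq_iff (by positivity)]
    refine mul_right_cancel₀ hp ?_
    rw [← e2]; push_cast; ring
  have f3 : s ^ (n3 - n1) = 3 := by
    rw [zpow_sub₀ hs.ne', div_eq_iff (by positivity)]
    refine mul_right_cancel₀ hp ?_
    rw [← e3]; push_cast; ring
  generalize n2 - n1 = u at f2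
  generalize n3 - n1 = v at f3
  have h3 : (2 : ℝ) ^ v = 3 ^ u := by rw [← f2, ← f3, ← zpow_mul, ← zpow_mul, mul_comm]
  have h4 : (2 : ℚ) ^ v = 3 ^ u := Rat.cast_injective (α := ℝ) (by push_cast; exact h3)
  have : Fact (Nat.Prime 3) := ⟨by norm_num⟩
  have h5 := congrArg (padicValRat 3) h4
  have h6 : padicValRat 3 3 = 1 := by exact_mod_cast padicValRat.self (p := 3) (by norm_num)
  have h7 : padicValRat 3 2 = 0 := by
    have := padicValRat.of_nat (p := 3) (n := 2)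
    rw [padicValNat.eq_zero_of_not_dvd (by norm_num)] at this
    exact_mod_cast this
  rw [padicValRat.zpow, padicValRat.zpow, h6, h7] at h5
  obtain rfl : u = 0 := by omega
  norm_num at f2

end Pool.Agent.Results.MP_4b3b27_co.Squares
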